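import Pool.Agent.V8H2.MQ.Runs
import Pool.Agent.R498.MT.Inst

set_option autoImplicit false

/-!
# Strings of consecutive primes `≡ 2 (mod 3)` in one residue class, all first members of almost prime twins
-/

namespace Pool.Agent.Results.MP_74f661_nt.ConsecutivePrimes

open Filter Finset

/-- `p` is prime and `p + 2` has at most `r` prime factors, counted with multiplicity, all of them at least
`w`. Every `p > w` starting a twin prime pair is of this kind (for `r ≥ 1`). -/
def AlmostTwin (r : ℕ) (w : ℝ) (p : ℕ) : Prop :=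
  p.Prime ∧ (p + 2).primeFactorsList.length ≤ r ∧ ∀ l : ℕ, l.Prime → l ∣ p + 2 → w ≤ l

theorem ev (n : ℤ) : (Polynomial.X * (Polynomial.X + 2) : Polynomial ℤ).eval n = n * (n + 2) := by
  simp

/-- **Strings of almost prime twins in one residue class.** Let `m ≥ 0`, `q ≥ 1` (for instance `q = 4`) and
let `a (a + 2)` be coprime to `q`. There are `C`, `r`, `B` and `δ > 0` such that for all large `N` there are
at least `N / (log N) ^ B` numbers `s` from which a string `s = x 0 < x 1 < ... < x m ≤ s + C` of primes in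
`(N, 2 N]`, all `≡ a` modulo `q`, starts, such that every `x j + 2` has at most `r` prime factors, all of
them at least `N ^ δ`, and such that the primes `p` strictly between two terms of the string all have
`3 ∣ p + 2`. So the `x j` are consecutive primes in the class `2` modulo `3`, which contains the first
members of all twin prime pairs but `(3, 5)`, and consecutive elements of every set `S` of primes containing
them but no prime `p` with `3 ∣ p + 2`. -/
theorem result (m q a : ℕ) (hq : 0 < q) (ha : Nat.Coprime (a * (a + 2)) q) :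
    ∃ (C r B : ℕ) (δ : ℝ), 0 < δ ∧ ∀ᶠ N : ℕ in atTop, ∃ T : Finset ℕ,
      (N : ℝ) / Real.log N ^ B ≤ T.card ∧ ∀ s ∈ T, ∃ x : ℕ → ℕ, x 0 = s ∧
        (∀ j ≤ m, N < x j ∧ x j ≤ 2 * N ∧ x j ≤ s + C ∧ x j ≡ a [MOD q] ∧ x j ≡ 2 [MOD 3] ∧
          AlmostTwin r ((N : ℝ) ^ δ) (x j)) ∧
        ∀ j < m, x j < x (j + 1) ∧ ∀ p : ℕ, p.Prime → x j < p → p < x (j + 1) → 3 ∣ p + 2 := by
  classical
  obtain ⟨g, hg⟩ := Pool.Agent.Y677.RSZ.poly_all (Polynomial.X * (Polynomial.X + 2) : Polynomial ℤ)
    (by
      intro h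
      have h1 := ev 1
      rw [h] at h1
      simp at h1)
    (fun p hp => by
      refine ⟨if p = 3 then 2 else 1, ?_⟩
      rw [ev]
      split_ifs with h3
      · rw [h3]
        norm_num
      · norm_num
        intro h
        have h1 : p ∣ 3 := by exact_mod_cast h
        exact h3 ((Nat.prime_dvd_prime_iff_eq hp Nat.prime_three).1 h1))
  obtain ⟨K, δ, hδ, B, hmain⟩ := Pool.Agent.V8H2.MQ.runs_count
    (Polynomial.X * (Polynomial.X + 2)) (g + 1) (by omega)
    (Pool.Agent.Y677.RSZ.Sys.mono hg (by omega)) (fun p _ n hd => by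
      rw [ev]
      exact hd.mul_right _) q a hq (fun p hp hpq h => by
      rw [ev] at h
      have h1 : p ∣ a * (a + 2) := by exact_mod_cast h
      have h2 := Nat.dvd_gcd h1 hpq
      rw [ha] at h2
      exact hp.one_lt.ne' (Nat.dvd_one.1 h2)) m
  obtain ⟨r, hr⟩ := exists_nat_ge ((2 : ℝ) / δ)
  refine ⟨3 * K, r, B, δ, hδ, ?_⟩
  have hB := hmain ((Finset.range K).image (fun i => 3 * i)) (by
      rw [card_image_of_injective _ (fun i j hij => by
        have : 3 * i = 3 * j := hij
        omega), card_range])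
    ((Finset.range (3 * K + 1)).filter (fun y => y % 3 ≠ 2)) (by
    intro h hh y hy hyh
    rw [mem_image] at hh
    obtain ⟨i, hi, rfl⟩ := hh
    rw [mem_filter] at hy
    rw [ev]
    apply mul_ne_zero
    · omega
    · omega) (3 * K)
  have hT := tendsto_natCast_atTop_atTop (R := ℝ)
  have hbig : ∀ᶠ N : ℕ in atTop, (4 : ℝ) ≤ (N : ℝ) ^ δ :=
    ((tendsto_rpow_atTop hδ).comp hT).eventually_ge_atTop _
  filter_upwards [hB, eventually_ge_atTop (3 * K + 4), hbig] with N hN hNK hNδ
  obtain ⟨H, hH, hHm, A, hA1, hA2⟩ := hN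
  have hmem : ∀ h ∈ H, h % 3 = 0 ∧ h ≤ 3 * K := by
    intro h hh
    have := hH hh
    rw [mem_image] at this
    obtain ⟨i, hi, rfl⟩ := this
    rw [mem_range] at hi
    omega
  obtain ⟨e, he⟩ : ∃ e : Fin H.card ↪o ℕ, e = H.orderEmbOfFin rfl := ⟨_, rfl⟩
  have heH : ∀ i, e i ∈ H := by
    intro i
    rw [he]
    exact Finset.orderEmbOfFin_mem H rfl i
  have hsur : ∀ h ∈ H, ∃ i, e i = h := by
    intro h hh
    have : h ∈ Set.range e := by
      rw [he, Finset.range_orderEmbOfFin]
      exact hh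
    exact this
  obtain ⟨f, hf⟩ : ∃ f : ℕ → ℕ, f = fun j => if h : j < H.card then e ⟨j, h⟩ else 0 := ⟨_, rfl⟩
  have hfe : ∀ j (h : j < H.card), f j = e ⟨j, h⟩ := by
    intro j h
    rw [hf]
    exact dif_pos h
  refine ⟨A.image (fun n => n + f 0), ?_, ?_⟩
  · rw [card_image_of_injective _ (fun i j hij => by
      have : i + f 0 = j + f 0 := hij
      omega)]
    exact hA1
  · intro s hs
    rw [mem_image] at hs
    obtain ⟨n, hn, rfl⟩ := hs
    obtain ⟨g1, g2, g3, g4, g5⟩ := hA2 n hn
    have hn3 : n % 3 = 2 := by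
      have h0 := hfe 0 (by omega)
      have h1 := heH ⟨0, by omega⟩
      obtain ⟨h2, h3⟩ := hmem _ h1
      by_contra hcon
      have h4 : ((3 : ℕ) : ℤ) ∣ (Polynomial.X * (Polynomial.X + 2) : Polynomial ℤ).eval
          ((n + e ⟨0, by omega⟩ : ℕ) : ℤ) := by
        rw [ev]
        obtain ⟨h, hh⟩ : ∃ h, h = e ⟨0, by omega⟩ := ⟨_, rfl⟩
        rw [← hh] at h2 h3 ⊢
        have h5 : (n + h) % 3 = 0 ∨ (n + h + 2) % 3 = 0 := by omega
        rcases h5 with h5 | h5
        · apply Dvd.dvd.mul_right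
          exact_mod_cast Nat.dvd_of_mod_eq_zero h5
        · apply Dvd.dvd.mul_left
          exact_mod_cast Nat.dvd_of_mod_eq_zero h5
      have h6 := g4 _ h1 3 Nat.prime_three h4
      norm_num at h6
      linarith
    refine ⟨fun j => n + f j, rfl, ?_, ?_⟩
    · intro j hj
      have hjH : j < H.card := by omega
      have h1 := heH ⟨j, hjH⟩
      have h0 := hfe j hjH
      obtain ⟨h2, h3⟩ := hmem _ h1
      rw [← h0] at h1 h2 h3
      show N < n + f j ∧ n + f j ≤ 2 * N ∧ n + f j ≤ n + f 0 + 3 * K ∧ n + f j ≡ a [MOD q] ∧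
        n + f j ≡ 2 [MOD 3] ∧ AlmostTwin r ((N : ℝ) ^ δ) (n + f j)
      obtain ⟨p1, p2⟩ := g3 _ h1
      have p3 : ∀ l : ℕ, l.Prime → l ∣ n + f j + 2 → (N : ℝ) ^ δ ≤ l := by
        intro l hl hld
        apply g4 _ h1 l hl
        rw [ev]
        apply Dvd.dvd.mul_left
        exact_mod_cast hld
      refine ⟨by omega, by omega, by omega, p2, ?_, p1, ?_, p3⟩
      · show (n + f j) % 3 = 2 % 3
        omega
      · have hNr : (3 : ℝ) ≤ N := by
          have : 3 ≤ N := by omega
          exact_mod_cast this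
        have h5 := Pool.Agent.R498.MT.omega_le N (n + f j + 2) δ 2 (by omega) hδ (by omega) p3 (by
          have h6 : n + f j + 2 ≤ 3 * N := by omega
          have h7 : ((n + f j + 2 : ℕ) : ℝ) ≤ 3 * N := by exact_mod_cast h6
          rw [Real.rpow_ofNat]
          nlinarith)
        have h8 : (((n + f j + 2).primeFactorsList.length : ℕ) : ℝ) ≤ r := h5.trans hr
        exact_mod_cast h8
    · intro j hj
      show n + f j < n + f (j + 1) ∧ ∀ p : ℕ, p.Prime → n + f j < p → p < n + f (j + 1) → 3 ∣ p + 2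
      have hjH : j < H.card := by omega
      have hjH' : j + 1 < H.card := by omega
      have h0 := hfe j hjH
      have h1 := hfe (j + 1) hjH'
      have h2 : e ⟨j, hjH⟩ < e ⟨j + 1, hjH'⟩ := e.strictMono (by
        rw [Fin.mk_lt_mk]
        omega)
      have h3 := heH ⟨j + 1, hjH'⟩
      obtain ⟨h4, h5⟩ := hmem _ h3
      rw [← h0, ← h1] at h2
      rw [← h1] at h3 h4 h5
      refine ⟨by omega, ?_⟩
      intro p hp hp1 hp2
      obtain ⟨y, hy⟩ : ∃ y, p = n + y := ⟨p - n, by omega⟩
      by_cases hy3 : y % 3 = 2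
      · omega
      · exfalso
        have hyH : y ∉ H := by
          intro hyH
          obtain ⟨i, hi⟩ := hsur y hyH
          have h6 : (⟨j, hjH⟩ : Fin H.card) < i := by
            rw [← e.lt_iff_lt, hi, ← h0]
            omega
          have h7 : i < (⟨j + 1, hjH'⟩ : Fin H.card) := by
            rw [← e.lt_iff_lt, hi, ← h1]
            omega
          rw [Fin.lt_def] at h6 h7
          simp only at h6 h7
          omega
        refine g5 y ?_ hyH (hy ▸ hp)
        rw [mem_filter, mem_range]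
        exact ⟨by omega, hy3⟩

end Pool.Agent.Results.MP_74f661_nt.ConsecutivePrimes
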