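import Pool.Agent.V8H31.TP.Seq

/-!
# Gaps and residues modulo 4 of consecutive almost-prime twins: the joint law

`S_z` is the set of the `n` such that neither `n` nor `n + 2` has a prime factor `≤ z`; its density is
`W z = (1/2) ∏_{3 ≤ p ≤ z} (1 - 2/p)`. Uniformly in all intervals `(Z, Z + Y]` with `Y ≥ z ^ K`, the residues modulo
4 of `k + 1` consecutive elements of `S_z` and the `k` normalised gaps among them are asymptotically independent,
the residues being uniform on `{1, 3}` and the gaps exponentially distributed. The same is true for every infinite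
sequence `{n : n (n + 2) has no prime factor ≤ z(n)}` where `z` is monotone, `z(n) → ∞` and `z(n) = n ^ o(1)`: it
contains all large twin primes, and the analogue of the question for it has a positive answer.
-/

set_option autoImplicit false

open Finset Filter

namespace Pool.Agent.Results.MP_74f661_nt.GapsAndResidues

/-- Neither `n` nor `n + 2` has a prime factor `≤ z`. -/
def RoughPair (z n : ℕ) : Prop := ∀ p : ℕ, p.Prime → p ≤ z → ¬ p ∣ n ∧ ¬ p ∣ n + 2

/-- The density of the set of the `n` with `RoughPair z n`. -/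
noncomputable def W (z : ℕ) : ℝ := (∏ p ∈ (Icc 3 z).filter Nat.Prime, (1 - 2 / (p : ℝ))) / 2

/-- `n 0 < n 1 < … < n k` are consecutive elements of `S`. -/
def Consecutive (S : ℕ → Prop) (k : ℕ) (n : ℕ → ℕ) : Prop :=
  (∀ i ≤ k, S (n i)) ∧ ∀ i < k, n i < n (i + 1) ∧ ∀ m, n i < m → m < n (i + 1) → ¬ S m

/-- `g = n 0` and the `k` next elements `n 1 < … < n k` of `S` are congruent to `a 0, …, a k` modulo 4, and every
gap `n (i + 1) - n i`, multiplied by `w (n i)`, is at most `lam i`. -/
def Follow (S : ℕ → Prop) (w : ℕ → ℝ) (k : ℕ) (a : ℕ → ℕ) (lam : ℕ → ℝ) (g : ℕ) : Prop :=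
  ∃ n : ℕ → ℕ, n 0 = g ∧ Consecutive S k n ∧ (∀ i ≤ k, n i % 4 = a i) ∧
    ∀ i < k, ((n (i + 1) : ℝ) - n i) * w (n i) ≤ lam i

/-- `g` is an element `≡ a` of `S`, the next element `g'` of `S` is `≡ b` modulo 4, and `s < (g' - g) w ≤ t`. -/
def Step (S : ℕ → Prop) (w : ℝ) (a b : ℕ) (s t : ℝ) (g : ℕ) : Prop :=
  S g ∧ g % 4 = a ∧ ∃ g' : ℕ, g < g' ∧ S g' ∧ (∀ m, g < m → m < g' → ¬ S m) ∧ g' % 4 = b ∧
    s < ((g' : ℝ) - g) * w ∧ ((g' : ℝ) - g) * w ≤ t

/-- `g` is an element `≡ a` of `S` and the next element of `S` is `≡ b` modulo 4. -/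
def Next (S : ℕ → Prop) (a b : ℕ) (g : ℕ) : Prop :=
  S g ∧ g % 4 = a ∧ ∃ g' : ℕ, g < g' ∧ S g' ∧ (∀ m, g < m → m < g' → ¬ S m) ∧ g' % 4 = b

open Classical in
/-- The number of the integers in `(u, v]` with the property `A`. -/
noncomputable def num (A : ℕ → Prop) (u v : ℕ) : ℕ := ((Ioc u v).filter A).card

open Pool.Agent.V11146.MK Pool.Agent.Y879.GL Pool.Agent.W123.RU.Poly Pool.Agent.TH464.PO Pool.Agent.V8H31.TP

lemma pattern : Pat 3 6 5 ![0, 2] where
  hM := by norm_num
  hc := by norm_num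
  hk := by norm_num
  hkP := by norm_num
  hpr := by
    intro p hp
    constructor
    · intro h
      have h1 : p ∣ 2 * 3 := by simpa using h
      rcases (Nat.Prime.dvd_mul hp).1 h1 with h2 | h2
      · have := (Nat.prime_dvd_prime_iff_eq hp Nat.prime_two).1 h2
        omega
      · have := (Nat.prime_dvd_prime_iff_eq hp Nat.prime_three).1 h2
        omega
    · intro h
      have := hp.two_le
      interval_cases p
      · norm_num
      · norm_num
  cop := by
    intro i
    fin_cases i <;> simp <;> norm_num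
  inj := by
    intro i j h
    fin_cases i <;> fin_cases j <;> simp_all
  dif := by
    intro i j hij p hp hp3 hd
    have h2 : (p : ℤ) ∣ 2 := by
      fin_cases i <;> fin_cases j <;> simp_all
    have h3 : p ∣ 2 := by exact_mod_cast h2
    have := Nat.le_of_dvd (by norm_num) h3
    omega

lemma rough_iff (y n : ℕ) (hy : 3 ≤ y) : RoughPair y n ↔ Rg 6 5 ![0, 2] y n := by
  unfold RoughPair Rg
  constructor
  · intro h
    refine ⟨?_, ?_⟩
    · obtain ⟨h2, _⟩ := h 2 Nat.prime_two (by omega)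
      obtain ⟨h3, h4⟩ := h 3 Nat.prime_three hy
      rw [Nat.dvd_iff_mod_eq_zero] at h2 h3 h4
      have h5 : n % 2 = 1 := by omega
      have h6 : n % 3 = 2 := by omega
      omega
    · intro p hp hpy i
      have := h p hp hpy
      fin_cases i
      · simpa using this.1
      · simpa using this.2
  · rintro ⟨_, h⟩ p hp hpy
    exact ⟨by simpa using h p hp hpy 0, by simpa using h p hp hpy 1⟩

lemma W_eq (z : ℕ) (hz : 3 ≤ z) : W z = Pool.Agent.W123.RP.Vq (Q (sy 6 5 ![0, 2])) z / (6 : ℕ) := by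
  rw [← V_eq pattern z]
  unfold W VP
  have h1 : (Icc 3 z).filter Nat.Prime = insert 3 ((Ioc 3 z).filter Nat.Prime) := by
    ext p
    rw [mem_insert, mem_filter, mem_filter, mem_Icc, mem_Ioc]
    constructor
    · rintro ⟨⟨h1, h2⟩, h3⟩
      rcases Nat.eq_or_lt_of_le h1 with h4 | h4
      · exact Or.inl h4.symm
      · exact Or.inr ⟨⟨h4, h2⟩, h3⟩
    · rintro (rfl | ⟨⟨h1, h2⟩, h3⟩)
      · exact ⟨⟨le_rfl, hz⟩, Nat.prime_three⟩
      · exact ⟨⟨by omega, h2⟩, h3⟩
  rw [h1, Finset.prod_insert (by simp)]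
  push_cast
  ring

lemma card_two : (cls (Q (sy 6 5 ![0, 2])) 2).card = 2 := by
  have h1 := card_cls (Q (sy 6 5 ![0, 2])) 2
  have h2 := nu_small pattern 2 Nat.prime_two (by norm_num)
  omega

/-- the joint law in the notation of the library -/
lemma main (k : ℕ) (ε : ℝ) (hε : 0 < ε) : ∃ K z₀ : ℕ, ∀ z : ℕ, z₀ ≤ z → 0 < W z ∧ ∀ Z Y : ℕ, z ^ K ≤ Y →
    |(ct (RoughPair z) Z (Z + Y) : ℝ) - Y * W z| ≤ ε * (Y * W z) ∧
    ∀ a : ℕ → ℕ, (∀ i ≤ k, a i = 1 ∨ a i = 3) → ∀ lam : ℕ → ℝ, (∀ i < k, 0 ≤ lam i) →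
      |(ct (Fol (RoughPair z) (fun n => n % 4) (fun _ => W z) a lam k) Z (Z + Y) : ℝ) -
        Y * W z * ((∏ j ∈ range k, (1 - Real.exp (-lam j))) / 2 ^ (k + 1))| ≤ ε * (Y * W z) := by
  have H := pattern
  obtain ⟨K, y0, h⟩ := law_all (sy 6 5 ![0, 2]) (sy_sys H) (sy_noTr H (by intro i; fin_cases i <;> simp)) 2 k
    Nat.prime_two 6 5 (by norm_num) RoughPair 3
    (fun y hy n => (rough_iff y n hy).trans (Rg_iff H y n)) (fun n => n % 4)
    (fun a => if a = 1 then 0 else 1) {1, 3}
    (by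
      intro b hb m
      simp only [mem_insert, mem_singleton] at hb
      rcases hb with rfl | rfl
      · simp only [if_true]
        omega
      · simp only [OfNat.ofNat_ne_one, if_false]
        omega)
    (by
      intro b hb
      rw [mem_cls, Q_iff]
      simp only [mem_insert, mem_singleton] at hb
      rcases hb with rfl | rfl
      · refine ⟨by norm_num, ?_⟩
        rintro ⟨i, hi⟩
        fin_cases i
        · norm_num at hi
        · norm_num at hi
      · refine ⟨by norm_num, ?_⟩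
        rintro ⟨i, hi⟩
        fin_cases i
        · norm_num at hi
        · norm_num at hi) ε hε
  refine ⟨K, max y0 5, ?_⟩
  intro z hz
  have hz5 : 5 ≤ z := (le_max_right _ _).trans hz
  obtain ⟨h0, _, h1⟩ := h z ((le_max_left _ _).trans hz) (W z) (W_eq z (by omega))
  refine ⟨h0, ?_⟩
  intro Z Y hY
  obtain ⟨h2, h3⟩ := h1 Z Y hY (Or.inr (fun h5 => (h5 5 (by norm_num) hz5).1 (dvd_refl 5)))
  refine ⟨h2, ?_⟩
  intro a ha lam hlam
  have h4 := h3 a (by
    intro i hi
    simp only [mem_insert, mem_singleton]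
    exact ha i hi) lam hlam
  rw [card_two] at h4
  exact h4

lemma follow_eq (S : ℕ → Prop) (w : ℕ → ℝ) (k : ℕ) (a : ℕ → ℕ) (lam : ℕ → ℝ) :
    Follow S w k a lam = Fol S (fun n => n % 4) w a lam k := rfl

lemma num_eq (A : ℕ → Prop) (u v : ℕ) : num A u v = ct A u v := rfl

/-- few prime factors -/
lemma few (z s N : ℕ) (hN : 0 < N) (hNz : N ≤ z ^ s) (h : ∀ p : ℕ, p.Prime → p ≤ z → ¬ p ∣ N) :
    N.primeFactorsList.length ≤ s := by
  by_contra hcon
  rw [not_le] at hcon
  have h1 : ∀ q ∈ N.primeFactorsList, z + 1 ≤ q := by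
    intro q hq
    by_contra h2
    exact h q (Nat.prime_of_mem_primeFactorsList hq) (by omega) (Nat.dvd_of_mem_primeFactorsList hq)
  have h2 : (z + 1) ^ N.primeFactorsList.length ≤ N.primeFactorsList.prod := List.pow_card_le_prod _ _ h1
  rw [Nat.prod_primeFactorsList hN.ne'] at h2
  have h3 : z ^ s < (z + 1) ^ N.primeFactorsList.length := by
    calc z ^ s ≤ (z + 1) ^ s := Nat.pow_le_pow_left (by omega) s
      _ < (z + 1) ^ N.primeFactorsList.length := Nat.pow_lt_pow_right (by
          rcases Nat.eq_zero_or_pos z with h4 | h4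
          · exfalso
            subst h4
            rcases Nat.eq_zero_or_pos s with h5 | h5
            · subst h5
              have : N = 1 := by simp at hNz; omega
              rw [this] at hcon
              simp at hcon
            · rw [Nat.zero_pow h5] at hNz
              omega
          · omega) hcon
  omega

/-- the sequence of the two residues -/
def two (a b : ℕ) (i : ℕ) : ℕ := if i = 0 then a else b

lemma fol_one (S : ℕ → Prop) (w : ℕ → ℝ) (a b : ℕ) (t : ℝ) (g : ℕ) :
    Fol S (fun n => n % 4) w (two a b) (fun _ => t) 1 g ↔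
      S g ∧ g % 4 = a ∧ ∃ g' : ℕ, g < g' ∧ S g' ∧ (∀ m, g < m → m < g' → ¬ S m) ∧ g' % 4 = b ∧
        ((g' : ℝ) - g) * w g ≤ t := by
  rw [fol_iff]
  unfold PR PR Rr two
  simp only [if_true, zero_add, one_ne_zero, if_false, and_true, zero_add]

lemma step_count (S : ℕ → Prop) (w : ℝ) (a b : ℕ) (s t : ℝ) (hst : s ≤ t) (u v : ℕ) :
    (num (Step S w a b s t) u v : ℝ) =
      ct (Fol S (fun n => n % 4) (fun _ => w) (two a b) (fun _ => t) 1) u v -
      ct (Fol S (fun n => n % 4) (fun _ => w) (two a b) (fun _ => s) 1) u v := by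
  classical
  rw [eq_sub_iff_add_eq]
  unfold num ct
  rw [← Nat.cast_add, ← Finset.card_union_of_disjoint]
  · congr 2
    rw [← Finset.filter_or]
    apply Finset.filter_congr
    intro g _
    rw [fol_one, fol_one]
    constructor
    · rintro (⟨h1, h2, g', h3, h4, h5, h6, h7, h8⟩ | ⟨h1, h2, g', h3, h4, h5, h6, h7⟩)
      · exact ⟨h1, h2, g', h3, h4, h5, h6, h8⟩
      · exact ⟨h1, h2, g', h3, h4, h5, h6, h7.trans hst⟩
    · rintro ⟨h1, h2, g', h3, h4, h5, h6, h7⟩
      by_cases h8 : ((g' : ℝ) - g) * w ≤ s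
      · exact Or.inr ⟨h1, h2, g', h3, h4, h5, h6, h8⟩
      · exact Or.inl ⟨h1, h2, g', h3, h4, h5, h6, not_le.1 h8, h7⟩
  · apply Finset.disjoint_filter.2
    intro g _ h1 h2
    rw [fol_one] at h2
    obtain ⟨_, _, g', h3, h4, h5, h6, h7, _⟩ := h1
    obtain ⟨_, _, g'', k3, k4, k5, k6, k7⟩ := h2
    have : g' = g'' := succ_unique S g g' g'' h3 h4 h5 k3 k4 k5
    subst this
    linarith

lemma two_mem (a b : ℕ) (ha : a = 1 ∨ a = 3) (hb : b = 1 ∨ b = 3) (i : ℕ) : two a b i = 1 ∨ two a b i = 3 := by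
  unfold two
  split_ifs
  · exact ha
  · exact hb

/-- **Gaps and residues modulo 4 of consecutive almost-prime twins.** -/
theorem result :
    -- the elements of `S_z` are almost-prime twins
    (∀ z s n : ℕ, 0 < n → n + 2 ≤ z ^ s → RoughPair z n →
      n.primeFactorsList.length ≤ s ∧ (n + 2).primeFactorsList.length ≤ s) ∧
    -- the joint law of the residues and of the normalised gaps, in all intervals
    (∀ (k : ℕ) (ε : ℝ), 0 < ε → ∃ K z₀ : ℕ, ∀ z : ℕ, z₀ ≤ z → ∀ Z Y : ℕ, z ^ K ≤ Y →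
      |(num (RoughPair z) Z (Z + Y) : ℝ) - Y * W z| ≤ ε * (Y * W z) ∧
      ∀ a : ℕ → ℕ, (∀ i ≤ k, a i = 1 ∨ a i = 3) → ∀ lam : ℕ → ℝ, (∀ i < k, 0 ≤ lam i) →
        |(num (Follow (RoughPair z) (fun _ => W z) k a lam) Z (Z + Y) : ℝ) -
          Y * W z * ((∏ j ∈ range k, (1 - Real.exp (-lam j))) / 2 ^ (k + 1))| ≤ ε * (Y * W z)) ∧
    -- for every range `(s, t]` of the normalised gap, the residue of the successor is unbiased
    (∀ δ ε : ℝ, 0 < δ → 0 < ε → ∃ K z₀ : ℕ, ∀ z : ℕ, z₀ ≤ z → ∀ Z Y : ℕ, z ^ K ≤ Y →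
      ∀ a b : ℕ, (a = 1 ∨ a = 3) → (b = 1 ∨ b = 3) → ∀ s t : ℝ, 0 ≤ s → s ≤ t →
        δ ≤ Real.exp (-s) - Real.exp (-t) →
        0 < num (Step (RoughPair z) (W z) a 1 s t) Z (Z + Y) + num (Step (RoughPair z) (W z) a 3 s t) Z (Z + Y) ∧
        |(num (Step (RoughPair z) (W z) a b s t) Z (Z + Y) : ℝ) /
          (num (Step (RoughPair z) (W z) a 1 s t) Z (Z + Y) + num (Step (RoughPair z) (W z) a 3 s t) Z (Z + Y)) -
          1 / 2| ≤ ε) ∧
    -- the infinite sequence `{n : RoughPair (z n) n}`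
    (∀ z : ℕ → ℕ, Monotone z → Tendsto z atTop atTop → (∀ K : ℕ, ∀ᶠ n in atTop, z n ^ K ≤ n) →
      (∀ᶠ p in atTop, p.Prime → (p + 2).Prime → RoughPair (z p) p) ∧
      (∀ (k : ℕ) (a : ℕ → ℕ), (∀ i ≤ k, a i = 1 ∨ a i = 3) → ∀ lam : ℕ → ℝ, (∀ i < k, 0 ≤ lam i) →
        Tendsto (fun x : ℕ => (num (Follow (fun n => RoughPair (z n) n) (fun n => W (z n)) k a lam) 0 x : ℝ) /
          num (fun n => RoughPair (z n) n) 0 x) atTop
          (nhds ((∏ j ∈ range k, (1 - Real.exp (-lam j))) / 2 ^ (k + 1)))) ∧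
      (∀ a b : ℕ, (a = 1 ∨ a = 3) → (b = 1 ∨ b = 3) →
        Tendsto (fun x : ℕ => (num (Next (fun n => RoughPair (z n) n) a b) 0 x : ℝ) /
          num (fun n => RoughPair (z n) n ∧ n % 4 = a) 0 x) atTop (nhds (1 / 2)))) := by
  refine ⟨?_, ?_, ?_, ?_⟩
  · intro z s n hn hns h
    exact ⟨few z s n hn (by omega) (fun p hp hpz => (h p hp hpz).1),
      few z s (n + 2) (by omega) hns (fun p hp hpz => (h p hp hpz).2)⟩
  · intro k ε hε
    obtain ⟨K, z₀, h⟩ := main k ε hε
    exact ⟨K, z₀, fun z hz Z Y hY => (h z hz).2 Z Y hY⟩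
  · intro δ ε hδ hε
    obtain ⟨e, he⟩ : ∃ e : ℝ, e = min (δ / 16) (ε * δ / 32) := ⟨_, rfl⟩
    have he0 : 0 < e := by rw [he]; positivity
    have he1 : e ≤ δ / 16 := by rw [he]; exact min_le_left _ _
    have he2 : e ≤ ε * δ / 32 := by rw [he]; exact min_le_right _ _
    obtain ⟨K, z₀, h⟩ := main 1 e he0
    refine ⟨K, z₀ + 1, ?_⟩
    intro z hz Z Y hY a b ha hb s t hs hst hδst
    obtain ⟨hW, h1⟩ := h z (by omega)
    obtain ⟨_, h2⟩ := h1 Z Y hY
    have hYr : (0 : ℝ) < Y := by
      have : 0 < Y := lt_of_lt_of_le (Nat.pow_pos (by omega)) hY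
      exact_mod_cast this
    obtain ⟨B, hB⟩ : ∃ B : ℝ, B = Y * W z := ⟨_, rfl⟩
    have hB0 : 0 < B := by rw [hB]; positivity
    have key : ∀ b' : ℕ, (b' = 1 ∨ b' = 3) →
        |(num (Step (RoughPair z) (W z) a b' s t) Z (Z + Y) : ℝ) - B * ((Real.exp (-s) - Real.exp (-t)) / 4)| ≤
          2 * e * B := by
      intro b' hb'
      have h3 := h2 (two a b') (fun i _ => two_mem a b' ha hb' i) (fun _ => t) (fun _ _ => hs.trans hst)
      have h4 := h2 (two a b') (fun i _ => two_mem a b' ha hb' i) (fun _ => s) (fun _ _ => hs)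
      rw [← hB] at h3 h4
      rw [step_count _ _ _ _ _ _ hst]
      norm_num at h3 h4
      rw [abs_le] at h3 h4 ⊢
      constructor <;> linarith [h3.1, h3.2, h4.1, h4.2]
    have k1 := key 1 (Or.inl rfl)
    have k3 := key 3 (Or.inr rfl)
    have kb := key b hb
    obtain ⟨N1, hN1⟩ : ∃ N : ℝ, N = num (Step (RoughPair z) (W z) a 1 s t) Z (Z + Y) := ⟨_, rfl⟩
    obtain ⟨N3, hN3⟩ : ∃ N : ℝ, N = num (Step (RoughPair z) (W z) a 3 s t) Z (Z + Y) := ⟨_, rfl⟩
    obtain ⟨Nb, hNb⟩ : ∃ N : ℝ, N = num (Step (RoughPair z) (W z) a b s t) Z (Z + Y) := ⟨_, rfl⟩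
    obtain ⟨D, hD⟩ : ∃ D : ℝ, D = Real.exp (-s) - Real.exp (-t) := ⟨_, rfl⟩
    rw [← hD] at hδst k1 k3 kb
    rw [← hN1] at k1 ⊢
    rw [← hN3] at k3 ⊢
    rw [← hNb] at kb ⊢
    rw [abs_le] at k1 k3 kb
    have hBD : δ * B ≤ D * B := by gcongr
    have heB : e * B ≤ δ / 16 * B := by gcongr
    have heB2 : e * B ≤ ε * δ / 32 * B := by gcongr
    have hsum : δ * B / 4 ≤ N1 + N3 := by nlinarith [k1.1, k3.1]
    have hsum0 : 0 < N1 + N3 := by
      have : 0 < δ * B := by positivity
      linarith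
    refine ⟨?_, ?_⟩
    · have : (0 : ℝ) < ((num (Step (RoughPair z) (W z) a 1 s t) Z (Z + Y) +
          num (Step (RoughPair z) (W z) a 3 s t) Z (Z + Y) : ℕ) : ℝ) := by
        push_cast
        rw [← hN1, ← hN3]
        exact hsum0
      exact_mod_cast this
    · have e1 : Nb / (N1 + N3) - 1 / 2 = (Nb - (N1 + N3) / 2) / (N1 + N3) := by
        field_simp
      rw [e1, abs_div, abs_of_pos hsum0, div_le_iff₀ hsum0]
      have e2 : |Nb - (N1 + N3) / 2| ≤ 4 * e * B := by
        rw [abs_le]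
        constructor <;> linarith [k1.1, k1.2, k3.1, k3.2, kb.1, kb.2]
      refine e2.trans ?_
      calc 4 * e * B ≤ ε * (δ * B / 4) := by nlinarith
        _ ≤ ε * (N1 + N3) := by gcongr
  · intro z hz hzt hzs
    -- the general limit
    obtain ⟨v, Cv, hv, hCv, hV⟩ := V_bounds (sy 6 5 ![0, 2]) (sy_sys pattern)
    have hcard : Fintype.card (Fin 2) = 2 := by simp
    rw [hcard] at hV
    obtain ⟨y1, hy1⟩ := Filter.eventually_atTop.1 ((Pool.Agent.TH464.PW.logpow_rpow 2 (6 / v) 1 (by positivity) one_pos).and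
      (eventually_ge_atTop 3))
    have hE : ∀ y : ℕ, y1 ≤ y → 1 ≤ W y * (y : ℝ) ^ 1 := by
      intro y hy
      obtain ⟨h1, h3⟩ := hy1 y hy
      rw [W_eq y h3]
      have h4 := (hV y h3).1
      rw [Real.rpow_one] at h1
      have hlog : 0 < Real.log y := Real.log_pos (by exact_mod_cast (by omega : 1 < y))
      have h5 : v / Real.log y ^ 2 / 6 * (6 / v * Real.log y ^ 2) ≤
          Pool.Agent.W123.RP.Vq (Q (sy 6 5 ![0, 2])) y / (6 : ℕ) * (y : ℝ) ^ 1 := by
        have h6 : 0 ≤ Pool.Agent.W123.RP.Vq (Q (sy 6 5 ![0, 2])) y := (by positivity : (0 : ℝ) ≤ _).trans h4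
        rw [pow_one]
        push_cast
        gcongr
      refine le_trans (le_of_eq ?_) h5
      field_simp
    have hlim : ∀ (k : ℕ) (a : ℕ → ℕ), (∀ i ≤ k, a i = 1 ∨ a i = 3) → ∀ lam : ℕ → ℝ, (∀ i < k, 0 ≤ lam i) →
        Tendsto (fun x : ℕ => (num (Follow (fun n => RoughPair (z n) n) (fun n => W (z n)) k a lam) 0 x : ℝ) /
          num (fun n => RoughPair (z n) n) 0 x) atTop
          (nhds ((∏ j ∈ range k, (1 - Real.exp (-lam j))) / 2 ^ (k + 1))) := by
      intro k a ha lam hlam
      have hprod := (prod_sub k (fun j => 1 - Real.exp (-lam j)) (fun j => 1 - Real.exp (-lam j))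
        (fun j hj => by
          have h10 : Real.exp (-lam j) ≤ 1 := Real.exp_le_one_iff.2 (by
            have := hlam j hj
            linarith)
          have h11 := Real.exp_pos (-lam j)
          constructor <;> linarith)
        (fun j hj => by
          have h10 : Real.exp (-lam j) ≤ 1 := Real.exp_le_one_iff.2 (by
            have := hlam j hj
            linarith)
          have h11 := Real.exp_pos (-lam j)
          constructor <;> linarith) 0 (fun j _ => by simp)).2.1
      have h2k : (1 : ℝ) ≤ 2 ^ (k + 1) := one_le_pow₀ (by norm_num)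
      refine star RoughPair W (fun n => n % 4) a lam k _ (by
        have := hprod.1
        positivity) (by
        rw [div_le_one (by positivity)]
        linarith [hprod.2]) ?_ 1 y1 hE z hz hzt hzs
      intro ε hε
      obtain ⟨K, z₀, h⟩ := main k ε hε
      refine ⟨K, z₀, ?_⟩
      intro y hy
      obtain ⟨h1, h2⟩ := h y hy
      refine ⟨h1, ?_⟩
      intro Z Y hY
      obtain ⟨h3, h4⟩ := h2 Z Y hY
      exact ⟨h3, h4 a ha lam hlam⟩
    refine ⟨?_, hlim, ?_⟩
    · filter_upwards [hzs 2, eventually_ge_atTop 2] with p h2 hp2 hp hpp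
      have hzp : z p < p := by
        rcases Nat.lt_or_ge (z p) p with h | h
        · exact h
        · exfalso
          have h3 : p ^ 2 ≤ z p ^ 2 := Nat.pow_le_pow_left h 2
          nlinarith
      intro q hq hqz
      constructor
      · intro h
        have := (Nat.prime_dvd_prime_iff_eq hq hp).1 h
        omega
      · intro h
        have := (Nat.prime_dvd_prime_iff_eq hq hpp).1 h
        omega
    · -- the analogue of the question
      classical
      obtain ⟨SS, hSS⟩ : ∃ SS : ℕ → Prop, SS = fun n => RoughPair (z n) n := ⟨_, rfl⟩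
      rw [← hSS] at hlim ⊢
      have hodd : ∀ᶠ n : ℕ in atTop, SS n → n % 4 = 1 ∨ n % 4 = 3 := by
        filter_upwards [hzt.eventually_ge_atTop 2] with n hn h
        rw [hSS] at h
        have := (h 2 Nat.prime_two hn).1
        omega
      -- the four patterns
      have hnext : ∀ a b : ℕ, (a = 1 ∨ a = 3) → (b = 1 ∨ b = 3) → ∀ ε : ℝ, 0 < ε →
          ∀ᶠ x : ℕ in atTop, 1 / 4 - ε ≤ (num (Next SS a b) 0 x : ℝ) / num SS 0 x := by
        intro a b ha hb ε hε
        obtain ⟨t, ht⟩ : ∃ t : ℝ, t = -Real.log (min ε 1) := ⟨_, rfl⟩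
        have hm0 : 0 < min ε 1 := by positivity
        have ht0 : 0 ≤ t := by
          rw [ht]
          have := Real.log_nonpos hm0.le (min_le_right _ _)
          linarith
        have hte : Real.exp (-t) ≤ ε := by
          rw [ht, neg_neg, Real.exp_log hm0]
          exact min_le_left _ _
        have h1 := hlim 1 (two a b) (fun i _ => two_mem a b ha hb i) (fun _ => t) (fun _ _ => ht0)
        have h2 : (∏ _j ∈ range 1, (1 - Real.exp (-t))) / 2 ^ (1 + 1) > 1 / 4 - ε := by
          rw [Finset.prod_range_one]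
          norm_num
          linarith
        filter_upwards [h1.eventually (lt_mem_nhds h2)] with x hx
        refine hx.le.trans ?_
        apply div_le_div_of_nonneg_right _ (Nat.cast_nonneg _)
        have h3 : num (Follow SS (fun n => W (z n)) 1 (two a b) (fun _ => t)) 0 x ≤ num (Next SS a b) 0 x := by
          unfold num
          apply card_le_card
          intro g hg
          rw [mem_filter] at hg ⊢
          have := (fol_one SS (fun n => W (z n)) a b t g).1 hg.2
          obtain ⟨h4, h5, g', h6, h7, h8, h9, _⟩ := this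
          exact ⟨hg.1, h4, h5, g', h6, h7, h8, h9⟩
        exact_mod_cast h3
      have hbase : ∀ a : ℕ, (a = 1 ∨ a = 3) →
          Tendsto (fun x : ℕ => (num (fun n => SS n ∧ n % 4 = a) 0 x : ℝ) / num SS 0 x) atTop (nhds (1 / 2)) := by
        intro a ha
        have h1 := hlim 0 (fun _ => a) (fun _ _ => ha) (fun _ => 0) (fun i hi => absurd hi (Nat.not_lt_zero i))
        have h2 : (∏ j ∈ range 0, (1 - Real.exp (-(0 : ℝ)))) / 2 ^ (0 + 1) = 1 / 2 := by simp
        rw [h2] at h1
        refine h1.congr ?_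
        intro x
        congr 2
        unfold num
        apply congrArg
        ext g
        simp only [mem_filter]
        apply and_congr_right
        intro _
        have := fol_iff SS (fun n => n % 4) (fun n => W (z n)) (fun _ => a) (fun _ => 0) 0 g
        constructor
        · intro h
          have h3 := this.1 h
          exact ⟨h3.1, h3.2.1⟩
        · rintro ⟨h3, h4⟩
          exact this.2 ⟨h3, h4, trivial⟩
      -- disjointness
      have hdis : ∀ (a : ℕ) (x : ℕ), num (Next SS a 1) 0 x + num (Next SS a 3) 0 x ≤ num (fun n => SS n ∧ n % 4 = a) 0 x := by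
        classical
        intro a x
        unfold num
        rw [← Finset.card_union_of_disjoint]
        · apply card_le_card
          intro g hg
          simp only [mem_union, mem_filter] at hg ⊢
          rcases hg with ⟨h1, h2, h3, _⟩ | ⟨h1, h2, h3, _⟩
          · exact ⟨h1, h2, h3⟩
          · exact ⟨h1, h2, h3⟩
        · apply Finset.disjoint_filter.2
          intro g _ h1 h2
          obtain ⟨_, _, g', h3, h4, h5, h6⟩ := h1
          obtain ⟨_, _, g'', k3, k4, k5, k6⟩ := h2
          have : g' = g'' := succ_unique SS g g' g'' h3 h4 h5 k3 k4 k5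
          subst this
          omega
      intro a b ha hb
      have hNlim : Tendsto (fun x : ℕ => (num (Next SS a b) 0 x : ℝ) / num SS 0 x) atTop (nhds (1 / 4)) := by
        rw [Metric.tendsto_atTop]
        intro ε hε
        have h1 := hnext a 1 ha (Or.inl rfl) (ε / 4) (by positivity)
        have h3 := hnext a 3 ha (Or.inr rfl) (ε / 4) (by positivity)
        have h5 := (hbase a ha).eventually (gt_mem_nhds (show (1 : ℝ) / 2 < 1 / 2 + ε / 4 by linarith))
        obtain ⟨x0, hx0⟩ := (h1.and (h3.and h5)).exists_forall_of_atTop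
        refine ⟨x0, ?_⟩
        intro x hx
        obtain ⟨g1, g3, g5⟩ := hx0 x hx
        have g6 : (num (Next SS a 1) 0 x : ℝ) / num SS 0 x + (num (Next SS a 3) 0 x : ℝ) / num SS 0 x ≤
            (num (fun n => SS n ∧ n % 4 = a) 0 x : ℝ) / num SS 0 x := by
          rw [← add_div]
          apply div_le_div_of_nonneg_right _ (Nat.cast_nonneg _)
          exact_mod_cast hdis a x
        rw [Real.dist_eq, abs_lt]
        rcases hb with rfl | rfl
        · constructor <;> linarith
        · constructor <;> linarith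
      have h6 := hNlim.div (hbase a ha) (by norm_num)
      have h7 : (1 : ℝ) / 4 / (1 / 2) = 1 / 2 := by norm_num
      rw [h7] at h6
      refine h6.congr' ?_
      have h8 := (hbase a ha).eventually (lt_mem_nhds (show (1 : ℝ) / 4 < 1 / 2 by norm_num))
      filter_upwards [h8] with x hx
      have h9 : (num SS 0 x : ℝ) ≠ 0 := by
        intro h10
        rw [h10, div_zero] at hx
        linarith
      simp only [Pi.div_apply]
      rw [div_div_div_cancel_right₀ h9]
      simp only [hSS]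

end Pool.Agent.Results.MP_74f661_nt.GapsAndResidues
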