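import Pool.Agent.V8H2.MQ.Pos

set_option autoImplicit false

/-!
# A positive proportion of the almost prime twins is followed by almost prime twins in the same residue class
-/

namespace Pool.Agent.Results.MP_74f661_nt.PositiveProportion

open Finset Filter

open Classical in
/-- The first members of the almost prime twins of `(N, 2 N]`: the primes `p` of `(N, 2 N]` such that all prime
factors of `p + 2` are at least `N ^ δ` (so that `p + 2` has at most `2 / δ` of them). All `p` starting a twin
prime pair are among them (`δ ≤ 1`). -/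
noncomputable def S (δ : ℝ) (N : ℕ) : Finset ℕ :=
  (Ioc N (2 * N)).filter (fun p => p.Prime ∧ ∀ l : ℕ, l.Prime → l ∣ p + 2 → (N : ℝ) ^ δ ≤ l)

open Classical in
/-- The elements `p` of `S δ N` such that `p` and the `m` elements of `S δ N` following `p` (which exist) are all
congruent to `a` modulo `q` and lie in an interval of length at most `D`. -/
noncomputable def Run (δ : ℝ) (N m q a : ℕ) (D : ℝ) : Finset ℕ :=
  (S δ N).filter (fun p => ∃ x : ℕ → ℕ, x 0 = p ∧
    (∀ j ≤ m, x j ∈ S δ N ∧ x j ≡ a [MOD q] ∧ (x j : ℝ) ≤ p + D) ∧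
    ∀ j < m, x j < x (j + 1) ∧ ∀ y ∈ S δ N, ¬ (x j < y ∧ y < x (j + 1)))

/-- **A positive proportion of runs.** Let `m ≥ 0`, `q ≥ 1` (for instance `q = 4`), `a (a + 2)` coprime to `q`.
There is `δ` with `0 < δ ≤ 1 / 24` such that for every `η > 0` there is `c > 0` such that for all large `N`:
for at least the proportion `c` of all the elements `p` of `S δ N`, `p` and the `m` next elements of `S δ N`
are all `≡ a` modulo `q` and lie in an interval of length at most `η (log N) ^ 2`; the number of these `p` is
also at least `c N / (log N) ^ 2`. -/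
theorem result (m q a : ℕ) (hq : 0 < q) (ha : Nat.Coprime (a * (a + 2)) q) :
    ∃ δ : ℝ, 0 < δ ∧ δ ≤ 1 / 24 ∧ ∀ η : ℝ, 0 < η → ∃ c : ℝ, 0 < c ∧ ∀ᶠ N : ℕ in atTop,
      c * ((S δ N).card : ℝ) ≤ ((Run δ N m q a (η * Real.log N ^ 2)).card : ℝ) ∧
      c * (N / Real.log N ^ 2) ≤ ((Run δ N m q a (η * Real.log N ^ 2)).card : ℝ) := by
  classical
  obtain ⟨W, b, δ, C₃, hW0, h6W, hqW, hbW, hbq, hδ, hδ24, hC₃, hup, hwin⟩ :=
    Pool.Agent.V8H2.MQ.windows m q a hq ha
  refine ⟨δ, hδ, hδ24, ?_⟩
  intro η hη
  obtain ⟨c, hc, hev⟩ := hwin η hη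
  have hSS : ∀ N, S δ N = Pool.Agent.V8H2.MQ.Sset δ N := by
    intro N
    ext p
    rw [Pool.Agent.V8H2.MQ.mem_Sset]
    unfold S
    rw [mem_filter, mem_Ioc]
    tauto
  have hmemS : ∀ N p, p ∈ S δ N ↔ N < p ∧ p ≤ 2 * N ∧ p.Prime ∧
      ∀ l : ℕ, l.Prime → l ∣ p + 2 → (N : ℝ) ^ δ ≤ l := by
    intro N p
    rw [hSS, Pool.Agent.V8H2.MQ.mem_Sset]
  have hW0r : (0 : ℝ) < W := by exact_mod_cast hW0
  obtain ⟨c', hc'⟩ : ∃ c' : ℝ, c' = c * W / η := ⟨_, rfl⟩
  have hc'0 : 0 < c' := by rw [hc']; positivity
  have hmin : 0 < min c' (c' / C₃) := lt_min hc'0 (by positivity)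
  refine ⟨min c' (c' / C₃), hmin, ?_⟩
  have hT := tendsto_natCast_atTop_atTop (R := ℝ)
  have hbig : ∀ᶠ N : ℕ in atTop, (4 : ℝ) ≤ (N : ℝ) ^ δ :=
    ((tendsto_rpow_atTop hδ).comp hT).eventually_ge_atTop _
  filter_upwards [hev, hup, hbig, eventually_ge_atTop 4] with N hN hNup hNδ hN4
  obtain ⟨H, U, hWH, hH0, hU, hx⟩ := hN
  have hNr : (4 : ℝ) ≤ N := by exact_mod_cast hN4
  have hN0 : (0 : ℝ) < N := by linarith
  have hlN : 0 < Real.log N := Real.log_pos (by linarith)
  choose! T hTH hTm hTr hTw using fun x hxU => (hx x hxU).2.2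
  -- the primes of the slots
  obtain ⟨P, hP⟩ : ∃ P : ℕ → Finset ℕ,
    P = fun x => (T x).filter (fun j => (W * (x + j) + b).Prime) := ⟨_, rfl⟩
  have hPm : ∀ x ∈ U, m < (P x).card := by
    intro x hxU
    rw [hP]
    exact hTm x hxU
  obtain ⟨e, he⟩ : ∃ e : ℕ → ℕ → ℕ, e = fun x j =>
    if h : j < (P x).card then (P x).orderEmbOfFin rfl ⟨j, h⟩ else 0 := ⟨_, rfl⟩
  have hee : ∀ x j (h : j < (P x).card), e x j = (P x).orderEmbOfFin rfl ⟨j, h⟩ := by
    intro x j h
    rw [he]
    exact dif_pos h
  have heP : ∀ x j, j < (P x).card → e x j ∈ P x := by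
    intro x j h
    rw [hee x j h]
    exact Finset.orderEmbOfFin_mem (P x) rfl _
  have hPT : ∀ x j, j ∈ P x → j ∈ T x ∧ (W * (x + j) + b).Prime := by
    intro x j hj
    rw [hP, mem_filter] at hj
    exact hj
  -- the elements
  have hslotS : ∀ x ∈ U, ∀ j ∈ P x, W * (x + j) + b ∈ S δ N ∧ j < H := by
    intro x hxU j hj
    obtain ⟨h1, h2⟩ := hPT x j hj
    have hjH : j < H := mem_range.1 (hTH x hxU h1)
    refine ⟨?_, hjH⟩
    obtain ⟨g1, g2, -⟩ := hx x hxU
    have g3 : W * j < W * H := Nat.mul_lt_mul_of_pos_left hjH hW0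
    have g4 : W * (x + j) = W * x + W * j := by ring
    rw [hmemS]
    refine ⟨by omega, by omega, h2, ?_⟩
    intro l hl hld
    by_contra hcon
    push Not at hcon
    apply hTr x hxU j h1 l hl hcon
    unfold Pool.Agent.V8H2.MQ.F2
    apply Dvd.dvd.mul_left
    exact_mod_cast hld
  have hcl : ∀ x j : ℕ, W * (x + j) + b ≡ a [MOD q] := by
    intro x j
    have h1 : W * (x + j) ≡ 0 [MOD q] := (Nat.modEq_zero_iff_dvd).2 (hqW.mul_right _)
    simpa using h1.add hbq
  -- the map to the first element
  obtain ⟨s, hs⟩ : ∃ s : ℕ → ℕ, s = fun x => W * (x + e x 0) + b := ⟨_, rfl⟩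
  have hsb : ∀ x ∈ U, W * x + b ≤ s x ∧ s x < W * x + b + W * H := by
    intro x hxU
    have h1 := heP x 0 (by have := hPm x hxU; omega)
    obtain ⟨-, h2⟩ := hslotS x hxU _ h1
    have g3 : W * e x 0 < W * H := Nat.mul_lt_mul_of_pos_left h2 hW0
    have g4 : W * (x + e x 0) = W * x + W * e x 0 := by ring
    rw [hs]
    simp only
    constructor <;> omega
  have hfib : ∀ y ∈ U.image s, (U.filter (fun x => s x = y)).card ≤ H := by
    intro y _
    have hsub : U.filter (fun x => s x = y) ⊆ Ioc ((y - b) / W - H) ((y - b) / W) := by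
      intro x hx'
      rw [mem_filter] at hx'
      obtain ⟨h1, h2⟩ := hx'
      obtain ⟨h3, h4⟩ := hsb x h1
      rw [h2] at h3 h4
      have h5 : x ≤ (y - b) / W := by
        rw [Nat.le_div_iff_mul_le hW0]
        have : x * W = W * x := mul_comm _ _
        omega
      have h6 : (y - b) / W < x + H := by
        rw [Nat.div_lt_iff_lt_mul hW0]
        have : (x + H) * W = W * x + W * H := by ring
        omega
      have h7 : 0 < x := by
        rcases Nat.eq_zero_or_pos x with h | h
        · exfalso
          obtain ⟨g1, -, -⟩ := hx x h1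
          rw [h, mul_zero] at g1
          omega
        · exact h
      rw [mem_Ioc]
      omega
    refine (card_le_card hsub).trans ?_
    rw [Nat.card_Ioc]
    omega
  have hcardU : U.card ≤ H * (U.image s).card := Finset.card_le_mul_card_image U H hfib
  have himage : U.image s ⊆ Run δ N m q a (η * Real.log N ^ 2) := by
    intro y hy
    rw [mem_image] at hy
    obtain ⟨x, hxU, rfl⟩ := hy
    have hPc := hPm x hxU
    unfold Run
    rw [mem_filter]
    have h0 := heP x 0 (by omega)
    refine ⟨?_, fun j => W * (x + e x j) + b, ?_, ?_, ?_⟩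
    · rw [hs]
      exact (hslotS x hxU _ h0).1
    · rw [hs]
    · intro j hj
      have h1 := heP x j (by omega)
      obtain ⟨h2, h3⟩ := hslotS x hxU _ h1
      refine ⟨h2, hcl _ _, ?_⟩
      obtain ⟨h4, h5⟩ := hsb x hxU
      have g3 : W * e x j < W * H := Nat.mul_lt_mul_of_pos_left h3 hW0
      have g4 : W * (x + e x j) = W * x + W * e x j := by ring
      have h6 : W * (x + e x j) + b ≤ s x + W * H := by omega
      have h7 : ((W * (x + e x j) + b : ℕ) : ℝ) ≤ (s x : ℝ) + ((W * H : ℕ) : ℝ) := by
        exact_mod_cast h6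
      linarith
    · intro j hj
      have hj1 : j < (P x).card := by omega
      have hj2 : j + 1 < (P x).card := by omega
      have h1 := hee x j hj1
      have h2 := hee x (j + 1) hj2
      have h3 : e x j < e x (j + 1) := by
        rw [h1, h2]
        apply ((P x).orderEmbOfFin rfl).strictMono
        rw [Fin.mk_lt_mk]
        omega
      refine ⟨?_, ?_⟩
      · have : W * (x + e x j) < W * (x + e x (j + 1)) :=
          Nat.mul_lt_mul_of_pos_left (by omega) hW0
        simp only
        omega
      · rintro y hyS ⟨hy1, hy2⟩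
        simp only at hy1 hy2
        have g4 : ∀ i, W * (x + i) = W * x + W * i := fun i => by ring
        rw [g4] at hy1 hy2
        have hlast := (hslotS x hxU _ (heP x (j + 1) hj2)).2
        have g5 : W * e x (j + 1) < W * H := Nat.mul_lt_mul_of_pos_left hlast hW0
        obtain ⟨i', hi'⟩ : ∃ i', y = W * x + (b + i') := ⟨y - (W * x + b), by omega⟩
        have hyS' : y ∈ Pool.Agent.V8H2.MQ.Sset δ N := by rw [← hSS]; exact hyS
        obtain ⟨i, hi, hij⟩ := hTw x hxU i' (by omega) (fun p hp hpN _ => by
          rw [← hi']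
          exact Pool.Agent.V8H2.MQ.Sset_F2 δ (by linarith) N y (by omega) hyS' p hp hpN)
        have hyp := (hmemS N y).1 hyS
        -- the class modulo 3 of the slot
        have hrough := hTr x hxU i hi 3 Nat.prime_three (by norm_num; linarith)
        unfold Pool.Agent.V8H2.MQ.F2 at hrough
        obtain ⟨W', hW'⟩ := h6W
        have hn3 : ¬ (3 ∣ W * (x + i) + b) ∧ ¬ (3 ∣ W * (x + i) + b + 2) := by
          constructor
          · intro h
            apply hrough
            apply Dvd.dvd.mul_right
            exact_mod_cast h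
          · intro h
            apply hrough
            apply Dvd.dvd.mul_left
            exact_mod_cast h
        rw [g4] at hn3
        rcases hij with h | h | h
        · -- a slot
          have hyslot : y = W * (x + i) + b := by rw [g4]; omega
          have hiP : i ∈ P x := by
            rw [hP, mem_filter]
            refine ⟨hi, ?_⟩
            rw [← hyslot]
            exact hyp.2.2.1
          have hi3 : i ∈ Set.range ((P x).orderEmbOfFin rfl) := by
            rw [Finset.range_orderEmbOfFin]
            exact hiP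
          obtain ⟨l, hl⟩ := hi3
          have h5 : e x j < i := by
            by_contra hcon
            have : W * i ≤ W * e x j := Nat.mul_le_mul_left _ (by omega)
            omega
          have h6 : i < e x (j + 1) := by
            by_contra hcon
            have : W * e x (j + 1) ≤ W * i := Nat.mul_le_mul_left _ (by omega)
            omega
          have h7 : (⟨j, hj1⟩ : Fin (P x).card) < l := by
            rw [← ((P x).orderEmbOfFin rfl).lt_iff_lt, hl, ← h1]
            exact h5
          have h8 : l < (⟨j + 1, hj2⟩ : Fin (P x).card) := by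
            rw [← ((P x).orderEmbOfFin rfl).lt_iff_lt, hl, ← h2]
            exact h6
          rw [Fin.lt_def] at h7 h8
          simp only at h7 h8
          omega
        · -- two more
          have h3 : 3 ∣ y + 2 := by omega
          have := hyp.2.2.2 3 Nat.prime_three h3
          norm_num at this
          linarith
        · -- two less
          have h3 : 3 ∣ y := by omega
          have h4 := (Nat.prime_dvd_prime_iff_eq Nat.prime_three hyp.2.2.1).1 h3
          omega
  have hcard2 : ((U.image s).card : ℝ) ≤ ((Run δ N m q a (η * Real.log N ^ 2)).card : ℝ) := by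
    exact_mod_cast card_le_card himage
  have hmain : c' * (N / Real.log N ^ 2) ≤ ((Run δ N m q a (η * Real.log N ^ 2)).card : ℝ) := by
    refine le_trans ?_ hcard2
    have h1 : (U.card : ℝ) ≤ H * ((U.image s).card : ℝ) := by exact_mod_cast hcardU
    have h2 : c * N ≤ H * ((U.image s).card : ℝ) := hU.trans h1
    have h3 : (H : ℝ) ≤ η * Real.log N ^ 2 / W := by
      rw [le_div_iff₀ hW0r]
      push_cast at hWH
      linarith
    have h4 : c * N ≤ η * Real.log N ^ 2 / W * ((U.image s).card : ℝ) :=
      h2.trans (mul_le_mul_of_nonneg_right h3 (Nat.cast_nonneg _))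
    rw [hc']
    have e1 : c * W / η * (N / Real.log N ^ 2) = (c * N) * (W / (η * Real.log N ^ 2)) := by
      field_simp
    rw [e1]
    have h5 : (0 : ℝ) < W / (η * Real.log N ^ 2) := by positivity
    calc (c * N) * (W / (η * Real.log N ^ 2)) ≤
        (η * Real.log N ^ 2 / W * ((U.image s).card : ℝ)) * (W / (η * Real.log N ^ 2)) :=
          mul_le_mul_of_nonneg_right h4 h5.le
      _ = ((U.image s).card : ℝ) := by field_simp
  have hrat : 0 ≤ (N : ℝ) / Real.log N ^ 2 := by positivity
  constructor
  · rw [← hSS] at hNup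
    calc min c' (c' / C₃) * ((S δ N).card : ℝ) ≤ c' / C₃ * (C₃ * (N / Real.log N ^ 2)) :=
          mul_le_mul (min_le_right _ _) hNup (Nat.cast_nonneg _) (by positivity)
      _ = c' * (N / Real.log N ^ 2) := by field_simp
      _ ≤ _ := hmain
  · exact (mul_le_mul_of_nonneg_right (min_le_left _ _) hrat).trans hmain

end Pool.Agent.Results.MP_74f661_nt.PositiveProportion
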