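import Pool.Agent.V8H34.PR.Runs
import Pool.Agent.R498.MT.Inst

set_option autoImplicit false

/-!
# Arithmetic progressions of strings of almost prime twins of one shape in one residue class
-/

namespace Pool.Agent.Results.MP_74f661_nt.ProgressionsOfRuns

open Filter Finset

/-- `p` is prime and `p + 2` has at most `r` prime factors, counted with multiplicity, all of them at least
`w`. Every `p > w` starting a twin prime pair is of this kind (for `r ≥ 1`). -/
def AlmostTwin (r : ℕ) (w : ℝ) (p : ℕ) : Prop :=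
  p.Prime ∧ (p + 2).primeFactorsList.length ≤ r ∧ ∀ l : ℕ, l.Prime → l ∣ p + 2 → w ≤ l

/-- A run of shape `h 0, ..., h m` at `x`: the numbers `x + h j`, `j ≤ m`, of `(N, 2 N]` are all `≡ a` modulo
`q`, `≡ 2` modulo `3`, and almost prime twins; every other prime `p` between `x` and `x + h m` has
`3 ∣ p + 2`, so that the `x + h j` are consecutive primes in the class `2` modulo `3`. -/
def IsRun (m q a r N : ℕ) (δ : ℝ) (h : ℕ → ℕ) (x : ℕ) : Prop :=
  (∀ j ≤ m, N < x + h j ∧ x + h j ≤ 2 * N ∧ x + h j ≡ a [MOD q] ∧ x + h j ≡ 2 [MOD 3] ∧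
    AlmostTwin r ((N : ℝ) ^ δ) (x + h j)) ∧
  ∀ p : ℕ, p.Prime → x < p → p < x + h m → (∀ j ≤ m, p ≠ x + h j) → 3 ∣ p + 2

theorem ev (n : ℤ) : (Polynomial.X * (Polynomial.X + 2) : Polynomial ℤ).eval n = n * (n + 2) := by
  simp

/-- **Progressions of runs.** Let `m ≥ 0`, `q ≥ 1` (for instance `q = 4`), `a (a + 2)` coprime to `q`.
There are `C`, `r` and `δ > 0` such that for every `l` there is `B` such that for all large `N` there is a
shape `0 = h 0 < ... < h m ≤ C` for which at least `N / (log N) ^ B` numbers `s` start an arithmetic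
progression `s, s + D, ..., s + (l - 1) D` with difference `1 ≤ D ≤ (log N) ^ B`, at every term of which
there is a run of this shape. -/
theorem result (m q a : ℕ) (hq : 0 < q) (ha : Nat.Coprime (a * (a + 2)) q) :
    ∃ (C r : ℕ) (δ : ℝ), 0 < δ ∧ ∀ l : ℕ, ∃ B : ℕ, ∀ᶠ N : ℕ in atTop,
      ∃ (h : ℕ → ℕ) (T : Finset ℕ), h 0 = 0 ∧ (∀ j < m, h j < h (j + 1)) ∧ h m ≤ C ∧
        (N : ℝ) / Real.log N ^ B ≤ T.card ∧
        ∀ s ∈ T, ∃ D : ℕ, 1 ≤ D ∧ (D : ℝ) ≤ Real.log N ^ B ∧
          ∀ i < l, IsRun m q a r N δ h (s + i * D) := by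
  classical
  obtain ⟨g, hg⟩ := Pool.Agent.Y677.RSZ.poly_all (Polynomial.X * (Polynomial.X + 2) : Polynomial ℤ)
    (by
      intro h
      have h1 := ev 1
      rw [h] at h1
      simp at h1)
    (fun p hp => by
      refine ⟨if p = 3 then 2 else 1, ?_⟩
      rw [ev]
      split_ifs with h3
      · rw [h3]
        norm_num
      · norm_num
        intro h
        have h1 : p ∣ 3 := by exact_mod_cast h
        exact h3 ((Nat.prime_dvd_prime_iff_eq hp Nat.prime_three).1 h1))
  obtain ⟨K, δ, hδ, hmain⟩ := Pool.Agent.V8H34.PR.runs_prog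
    (Polynomial.X * (Polynomial.X + 2)) (g + 1) (by omega)
    (Pool.Agent.Y677.RSZ.Sys.mono hg (by omega)) (fun p _ n hd => by
      rw [ev]
      exact hd.mul_right _) q a hq (fun p hp hpq h => by
      rw [ev] at h
      have h1 : p ∣ a * (a + 2) := by exact_mod_cast h
      have h2 := Nat.dvd_gcd h1 hpq
      rw [ha] at h2
      exact hp.one_lt.ne' (Nat.dvd_one.1 h2)) m
  obtain ⟨r, hr⟩ := exists_nat_ge ((2 : ℝ) / δ)
  refine ⟨3 * K, r, δ, hδ, ?_⟩
  intro l
  obtain ⟨B, hB⟩ := hmain ((Finset.range K).image (fun i => 3 * i)) (by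
      rw [card_image_of_injective _ (fun i j hij => by
        have : 3 * i = 3 * j := hij
        omega), card_range])
    ((Finset.range (3 * K + 1)).filter (fun y => y % 3 ≠ 2)) (by
    intro h hh y hy hyh
    rw [mem_image] at hh
    obtain ⟨i, hi, rfl⟩ := hh
    rw [mem_filter] at hy
    rw [ev]
    apply mul_ne_zero
    · omega
    · omega) (3 * K) (l + 2) (by omega)
  refine ⟨B, ?_⟩
  have hT := tendsto_natCast_atTop_atTop (R := ℝ)
  have hbig : ∀ᶠ N : ℕ in atTop, (4 : ℝ) ≤ (N : ℝ) ^ δ :=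
    ((tendsto_rpow_atTop hδ).comp hT).eventually_ge_atTop _
  filter_upwards [hB, eventually_ge_atTop (3 * K + 4), hbig] with N hN hNK hNδ
  obtain ⟨H, hH, hHm, A, T, hT1, hT2, hA2⟩ := hN
  have hmem : ∀ h ∈ H, h % 3 = 0 ∧ h ≤ 3 * K := by
    intro h hh
    have := hH hh
    rw [mem_image] at this
    obtain ⟨i, hi, rfl⟩ := this
    rw [mem_range] at hi
    omega
  obtain ⟨e, he⟩ : ∃ e : Fin H.card ↪o ℕ, e = H.orderEmbOfFin rfl := ⟨_, rfl⟩
  have heH : ∀ i, e i ∈ H := by
    intro i
    rw [he]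
    exact Finset.orderEmbOfFin_mem H rfl i
  have hsur : ∀ h ∈ H, ∃ i, e i = h := by
    intro h hh
    have : h ∈ Set.range e := by
      rw [he, Finset.range_orderEmbOfFin]
      exact hh
    exact this
  obtain ⟨f, hf⟩ : ∃ f : ℕ → ℕ, f = fun j => if h : j < H.card then e ⟨j, h⟩ else 0 := ⟨_, rfl⟩
  have hfe : ∀ j (h : j < H.card), f j = e ⟨j, h⟩ := by
    intro j h
    rw [hf]
    exact dif_pos h
  have hfle : ∀ j ≤ m, f 0 ≤ f j ∧ f j ∈ H := by
    intro j hj
    rw [hfe 0 (by omega), hfe j (by omega)]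
    exact ⟨e.monotone (by rw [Fin.mk_le_mk]; omega), heH _⟩
  -- a run at every element of `A`
  have hrun : ∀ n ∈ A, IsRun m q a r N δ (fun j => f j - f 0) (n + f 0) := by
    intro n hn
    obtain ⟨g1, g2, g3, g4, g5⟩ := hA2 n hn
    have hn3 : n % 3 = 2 := by
      obtain ⟨-, h1⟩ := hfle 0 (by omega)
      obtain ⟨h2, h3⟩ := hmem _ h1
      by_contra hcon
      have h4 : ((3 : ℕ) : ℤ) ∣ (Polynomial.X * (Polynomial.X + 2) : Polynomial ℤ).eval
          ((n + f 0 : ℕ) : ℤ) := by
        rw [ev]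
        have h5 : (n + f 0) % 3 = 0 ∨ (n + f 0 + 2) % 3 = 0 := by omega
        rcases h5 with h5 | h5
        · apply Dvd.dvd.mul_right
          exact_mod_cast Nat.dvd_of_mod_eq_zero h5
        · apply Dvd.dvd.mul_left
          exact_mod_cast Nat.dvd_of_mod_eq_zero h5
      have h6 := g4 _ h1 3 Nat.prime_three h4
      norm_num at h6
      linarith
    have hsum : ∀ j ≤ m, n + f 0 + (f j - f 0) = n + f j := by
      intro j hj
      have := (hfle j hj).1
      omega
    refine ⟨?_, ?_⟩
    · intro j hj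
      show N < n + f 0 + (f j - f 0) ∧ n + f 0 + (f j - f 0) ≤ 2 * N ∧
        n + f 0 + (f j - f 0) ≡ a [MOD q] ∧ n + f 0 + (f j - f 0) ≡ 2 [MOD 3] ∧
        AlmostTwin r ((N : ℝ) ^ δ) (n + f 0 + (f j - f 0))
      rw [hsum j hj]
      obtain ⟨-, h1⟩ := hfle j hj
      obtain ⟨h2, h3⟩ := hmem _ h1
      obtain ⟨p1, p2⟩ := g3 _ h1
      have p3 : ∀ l : ℕ, l.Prime → l ∣ n + f j + 2 → (N : ℝ) ^ δ ≤ l := by
        intro l hl hld
        apply g4 _ h1 l hl
        rw [ev]
        apply Dvd.dvd.mul_left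
        exact_mod_cast hld
      refine ⟨by omega, by omega, p2, ?_, p1, ?_, p3⟩
      · show (n + f j) % 3 = 2 % 3
        omega
      · have hNr : (3 : ℝ) ≤ N := by
          have : 3 ≤ N := by omega
          exact_mod_cast this
        have h5 := Pool.Agent.R498.MT.omega_le N (n + f j + 2) δ 2 (by omega) hδ (by omega) p3 (by
          have h6 : n + f j + 2 ≤ 3 * N := by omega
          have h7 : ((n + f j + 2 : ℕ) : ℝ) ≤ 3 * N := by exact_mod_cast h6
          rw [Real.rpow_ofNat]
          nlinarith)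
        have h8 : (((n + f j + 2).primeFactorsList.length : ℕ) : ℝ) ≤ r := h5.trans hr
        exact_mod_cast h8
    · intro p hp hp1 hp2 hpj
      have hp2' : p < n + f m := by
        have := hsum m le_rfl
        simp only at hp2
        omega
      obtain ⟨y, hy⟩ : ∃ y, p = n + y := ⟨p - n, by omega⟩
      obtain ⟨-, hmH⟩ := hfle m le_rfl
      obtain ⟨-, hm3⟩ := hmem _ hmH
      by_cases hy3 : y % 3 = 2
      · omega
      · exfalso
        refine g5 y ?_ ?_ (hy ▸ hp)
        · rw [mem_filter, mem_range]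
          exact ⟨by omega, hy3⟩
        · intro hyH
          obtain ⟨i, hi⟩ := hsur y hyH
          have him : i.1 ≤ m := by
            by_contra hcon
            push Not at hcon
            have h6 : (⟨m, by omega⟩ : Fin H.card) < i := by
              rw [Fin.lt_def]
              exact hcon
            have h7 := e.strictMono h6
            rw [hi, ← hfe m (by omega)] at h7
            omega
          apply hpj i.1 him
          simp only
          rw [hsum i.1 him, hfe i.1 i.2, hy, ← hi]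
  refine ⟨fun j => f j - f 0, T.image (fun n => n + f 0), by simp, ?_, ?_, ?_, ?_⟩
  · intro j hj
    have h1 : f j < f (j + 1) := by
      rw [hfe j (by omega), hfe (j + 1) (by omega)]
      apply e.strictMono
      rw [Fin.mk_lt_mk]
      omega
    have h2 := (hfle j (by omega)).1
    simp only
    omega
  · have h1 := (hmem _ (hfle m le_rfl).2).2
    simp only
    omega
  · rw [card_image_of_injective _ (fun i j hij => by
      have : i + f 0 = j + f 0 := hij
      omega)]
    exact hT1
  · intro s hs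
    rw [mem_image] at hs
    obtain ⟨n, hn, rfl⟩ := hs
    obtain ⟨D, hD1, hD2, hD3⟩ := hT2 n hn
    refine ⟨D, hD1, hD2, ?_⟩
    intro i hi
    have h1 := hrun _ (hD3 i (by omega))
    have e1 : n + i * D + f 0 = n + f 0 + i * D := by ring
    rw [e1] at h1
    exact h1

end Pool.Agent.Results.MP_74f661_nt.ProgressionsOfRuns
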